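import Pool.Agent.Helper30.NilUniv

set_option autoImplicit false

namespace Pool.Agent.Results.MP_4977d9_al.NoUniversal

open Pool.Agent.Helper30.NilUniv

universe u v

lemma countable_of_rank {F : Type u} [Field F] [Countable F] {A : Type v} [AddCommGroup A]
    [Module F A] (h : Module.rank F A ≤ Cardinal.aleph0) : Countable A := by
  have b := Module.Free.chooseBasis F A
  have h1 : Countable (Module.Free.ChooseBasisIndex F A) := by
    rw [← Cardinal.mk_le_aleph0_iff, ← Module.Free.rank_eq_card_chooseBasisIndex]
    exact h
  exact b.repr.toEquiv.injective.countable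

/-- Over a field, an element generating a finite dimensional subalgebra satisfies a nonzero
polynomial without constant term. -/
lemma exists_poly {F : Type u} [Field F] {A : Type v} [NonUnitalRing A]
    [Module F A] [IsScalarTower F A A] [SMulCommClass F A A] (a : A)
    (h : FiniteDimensional F (NonUnitalAlgebra.adjoin F {a})) :
    ∃ p : Polynomial F, p ≠ 0 ∧ p.coeff 0 = 0 ∧
      Polynomial.aeval (a : Unitization F A) p = 0 := by
  let S : Submodule F (Unitization F A) :=
    (NonUnitalAlgebra.adjoin F {a}).toSubmodule.map (Unitization.inrHom F F A)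
  have hS : FiniteDimensional F S := by
    have : FiniteDimensional F (NonUnitalAlgebra.adjoin F {a}).toSubmodule := h
    infer_instance
  let φ : Polynomial F →ₗ[F] Unitization F A :=
    (Polynomial.aeval (a : Unitization F A)).toLinearMap ∘ₗ
      (LinearMap.mulLeft F (Polynomial.X : Polynomial F))
  have hpow : ∀ n : ℕ, (a : Unitization F A) ^ (n + 1) ∈ S := by
    intro n
    induction n with
    | zero =>
      refine ⟨a, NonUnitalAlgebra.subset_adjoin F (Set.mem_singleton a), ?_⟩
      simp
    | succ n ih =>
      obtain ⟨x, hx, hxe⟩ := ih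
      refine ⟨x * a, ?_, ?_⟩
      · exact (NonUnitalAlgebra.adjoin F {a}).mul_mem hx
          (NonUnitalAlgebra.subset_adjoin F (Set.mem_singleton a))
      · rw [pow_succ, ← hxe]
        exact Unitization.inr_mul F x a
  have hφ : ∀ p : Polynomial F, φ p ∈ S := by
    intro p
    induction p using Polynomial.induction_on' with
    | add p q hp hq => rw [map_add]; exact S.add_mem hp hq
    | monomial n c =>
      have : φ (Polynomial.monomial n c) = c • (a : Unitization F A) ^ (n + 1) := by
        simp only [φ, LinearMap.comp_apply, LinearMap.mulLeft_apply, AlgHom.toLinearMap_apply,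
          Polynomial.X_mul_monomial, Polynomial.aeval_monomial, Algebra.smul_def]
      rw [this]
      exact S.smul_mem _ (hpow n)
  let ψ : Polynomial F →ₗ[F] S := φ.codRestrict S hφ
  have hinj : ¬ Function.Injective ψ := by
    intro hi
    have h1 : FiniteDimensional F (Polynomial F) := FiniteDimensional.of_injective ψ hi
    exact Polynomial.not_finite h1
  rw [← LinearMap.ker_eq_bot, Submodule.eq_bot_iff] at hinj
  push Not at hinj
  obtain ⟨p, hp, hp0⟩ := hinj
  refine ⟨Polynomial.X * p, mul_ne_zero Polynomial.X_ne_zero hp0, by simp, ?_⟩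
  have h2 : φ p = 0 := congrArg Subtype.val (LinearMap.mem_ker.mp hp)
  exact h2

/-- A nilpotent element generates a finite dimensional subalgebra. -/
lemma finite_of_nilpotent {F : Type u} [Field F] {Q : Type v} [Ring Q] [Algebra F Q]
    (B : NonUnitalSubalgebra F Q) (b : B) (hb : IsNilpotent (b : Q)) :
    FiniteDimensional F (NonUnitalAlgebra.adjoin F {b}) := by
  obtain ⟨n, hn⟩ := hb
  have hint : IsIntegral F (b : Q) := by
    refine ⟨Polynomial.X ^ n, Polynomial.monic_X_pow n, ?_⟩
    rw [Polynomial.eval₂_X_pow, hn]
  have hfin : FiniteDimensional F (Algebra.adjoin F {(b : Q)}) :=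
    Module.Finite.iff_fg.mpr hint.fg_adjoin_singleton
  let ι : B →ₙₐ[F] Q := NonUnitalSubalgebraClass.subtype B
  have hle : NonUnitalAlgebra.adjoin F {b} ≤
      (Algebra.adjoin F {(b : Q)}).toNonUnitalSubalgebra.comap ι := by
    apply NonUnitalAlgebra.adjoin_le
    intro x hx
    rw [Set.mem_singleton_iff] at hx
    subst hx
    exact Algebra.subset_adjoin (Set.mem_singleton _)
  let j : NonUnitalAlgebra.adjoin F {b} →ₗ[F] Algebra.adjoin F {(b : Q)} :=
    { toFun := fun x => ⟨((x : B) : Q), hle x.2⟩
      map_add' := fun x y => rfl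
      map_smul' := fun c x => rfl }
  refine FiniteDimensional.of_injective j ?_
  intro x y hxy
  apply Subtype.ext
  apply Subtype.ext
  have h1 : ((j x : Algebra.adjoin F {(b : Q)}) : Q) = (j y : Algebra.adjoin F {(b : Q)}) :=
    congrArg _ hxy
  exact h1

/-- Over no countable field is there an algebraic algebra of countable dimension which maps onto
every algebraic algebra of countable dimension. -/
theorem result (F : Type u) [Field F] [Countable F] :
    ¬ ∃ (U : Type v) (_ : NonUnitalRing U) (_ : Module F U)
      (_ : IsScalarTower F U U) (_ : SMulCommClass F U U),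
      (∀ a : U, FiniteDimensional F (NonUnitalAlgebra.adjoin F {a})) ∧
      Module.rank F U ≤ Cardinal.aleph0 ∧
      ∀ (B : Type u) [NonUnitalRing B] [Module F B] [IsScalarTower F B B] [SMulCommClass F B B],
        (∀ b : B, FiniteDimensional F (NonUnitalAlgebra.adjoin F {b})) →
        Module.rank F B ≤ Cardinal.aleph0 →
        ∃ f : U →ₙₐ[F] B, Function.Surjective f := by
  rintro ⟨U, _, _, _, _, halg, hrk, huniv⟩
  have hc : Countable U := countable_of_rank hrk
  obtain ⟨Q, _, _, B, hBc, hBn, hB⟩ := main F U (fun a => exists_poly a (halg a))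
  apply hB
  refine huniv B (fun b => finite_of_nilpotent B b (hBn b)) ?_
  refine (rank_le_card F B).trans ?_
  rw [Cardinal.mk_le_aleph0_iff]
  exact hBc

end Pool.Agent.Results.MP_4977d9_al.NoUniversal
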